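import Mathlib

/-!
# LOGEQ, part D: basic definitions on the cube `ι → Bool`

`sg b = ±1`, `Ex` the uniform average, `chi` characters, `co` Fourier coefficients, fractional families of rectangles
`Fam h k`, the multilinear function `FF h k p = E_{(x,y) with correlations p} ∑ τ, h τ x * k τ y` and its mixed
derivatives `dFF h k S p`.
-/

namespace Pool.Agent.H.MP_dd1c2e_lc.le

open Finset

variable {ι : Type} [Fintype ι] [DecidableEq ι] {K : Type} [Fintype K]

/-- the sign of a bit -/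
def sg (b : Bool) : ℝ := if b then -1 else 1

@[simp] lemma sg_true : sg true = -1 := rfl
@[simp] lemma sg_false : sg false = 1 := rfl

lemma sg_mul_self (b : Bool) : sg b * sg b = 1 := by cases b <;> simp
lemma sg_sq (b : Bool) : sg b ^ 2 = 1 := by cases b <;> simp
lemma abs_sg (b : Bool) : |sg b| = 1 := by cases b <;> simp
lemma sg_xor (a b : Bool) : sg (xor a b) = sg a * sg b := by cases a <;> cases b <;> simp

/-- the uniform average of a function on the cube -/
noncomputable def Ex (f : (ι → Bool) → ℝ) : ℝ := (∑ x, f x) / 2 ^ (Fintype.card ι)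

/-- characters -/
noncomputable def chi (S : Finset ι) (x : ι → Bool) : ℝ := ∏ i ∈ S, sg (x i)

/-- Fourier coefficients -/
noncomputable def co (h : (ι → Bool) → ℝ) (S : Finset ι) : ℝ := Ex (fun x => h x * chi S x)

/-- the level-2 weight -/
noncomputable def W2 (h : (ι → Bool) → ℝ) : ℝ := ∑ S ∈ powersetCard 2 (univ : Finset ι), co h S ^ 2

/-- A fractional family of rectangles: `h τ`, `k τ` with values in `[0,1]` and `∑ τ, h τ x * k τ y ≤ 1`. -/
structure Fam (h : K → (ι → Bool) → ℝ) (k : K → (ι → Bool) → ℝ) : Prop where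
  h0 : ∀ τ x, 0 ≤ h τ x
  h1 : ∀ τ x, h τ x ≤ 1
  k0 : ∀ τ y, 0 ≤ k τ y
  k1 : ∀ τ y, k τ y ≤ 1
  hk1 : ∀ x y, ∑ τ, h τ x * k τ y ≤ 1

/-- the value `E_{(x,y)} ∑ τ, h τ x * k τ y`, where the pairs `(x i, y i)` are independent, `x i`, `y i` are uniform and
have correlation `p i` -/
noncomputable def FF (h k : K → (ι → Bool) → ℝ) (p : ι → ℝ) : ℝ :=
  ∑ x : ι → Bool, ∑ y : ι → Bool, (∑ τ, h τ x * k τ y) * ∏ i, ((1 + p i * (sg (x i) * sg (y i))) / 4)

/-- its mixed derivatives -/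
noncomputable def dFF (h k : K → (ι → Bool) → ℝ) (S : Finset ι) (p : ι → ℝ) : ℝ :=
  ∑ x : ι → Bool, ∑ y : ι → Bool, (∑ τ, h τ x * k τ y) *
    ∏ i, (if i ∈ S then (sg (x i) * sg (y i)) / 4 else (1 + p i * (sg (x i) * sg (y i))) / 4)

/-- the probability of `z` under independent rounding of `p ∈ [-1,1]^ι` -/
noncomputable def rnd (p : ι → ℝ) (z : ι → Bool) : ℝ := ∏ i, ((1 + p i * sg (z i)) / 2)

lemma Ex_nonneg {f : (ι → Bool) → ℝ} (hf : ∀ x, 0 ≤ f x) : 0 ≤ Ex f :=
  div_nonneg (Finset.sum_nonneg fun x _ => hf x) (by positivity)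

lemma Ex_const (c : ℝ) : Ex (fun _ : ι → Bool => c) = c := by
  unfold Ex
  rw [Finset.sum_const, Finset.card_univ, Fintype.card_fun, Fintype.card_bool, nsmul_eq_mul]
  push_cast
  field_simp

lemma Ex_mono {f g : (ι → Bool) → ℝ} (hf : ∀ x, f x ≤ g x) : Ex f ≤ Ex g := by
  unfold Ex
  exact div_le_div_of_nonneg_right (Finset.sum_le_sum fun x _ => hf x) (by positivity)

lemma Ex_add (f g : (ι → Bool) → ℝ) : Ex (fun x => f x + g x) = Ex f + Ex g := by
  unfold Ex
  rw [Finset.sum_add_distrib, add_div]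

lemma Ex_sub (f g : (ι → Bool) → ℝ) : Ex (fun x => f x - g x) = Ex f - Ex g := by
  unfold Ex
  rw [Finset.sum_sub_distrib, sub_div]

lemma Ex_smul (c : ℝ) (f : (ι → Bool) → ℝ) : Ex (fun x => c * f x) = c * Ex f := by
  unfold Ex
  rw [← Finset.mul_sum, mul_div_assoc]

lemma Ex_sum {α : Type*} (s : Finset α) (f : α → (ι → Bool) → ℝ) :
    Ex (fun x => ∑ a ∈ s, f a x) = ∑ a ∈ s, Ex (f a) := by
  unfold Ex
  rw [Finset.sum_comm, Finset.sum_div]

lemma Ex_le_one {f : (ι → Bool) → ℝ} (hf : ∀ x, f x ≤ 1) : Ex f ≤ 1 :=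
  (Ex_mono hf).trans (Ex_const 1).le

/-- sums of products over the cube factor -/
lemma sum_prod_cube (c : ι → Bool → ℝ) : ∑ x : ι → Bool, ∏ i, c i (x i) = ∏ i, ∑ b, c i b := by
  rw [Finset.prod_univ_sum, Fintype.piFinset_univ]

/-- sums of products over pairs -/
lemma sum_prod_cube2 (c : ι → Bool → Bool → ℝ) :
    ∑ x : ι → Bool, ∑ y : ι → Bool, ∏ i, c i (x i) (y i) = ∏ i, ∑ a, ∑ b, c i a b := by
  rw [← sum_prod_cube (fun i a => ∑ b, c i a b)]
  refine Finset.sum_congr rfl fun x _ => ?_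
  exact sum_prod_cube (fun i b => c i (x i) b)

lemma rnd_nonneg {p : ι → ℝ} (hp : ∀ i, |p i| ≤ 1) (z : ι → Bool) : 0 ≤ rnd p z := by
  unfold rnd
  refine Finset.prod_nonneg fun i _ => ?_
  have h := abs_le.1 (hp i)
  cases z i <;> simp <;> linarith [h.1, h.2]

lemma rnd_sum (p : ι → ℝ) : ∑ z : ι → Bool, rnd p z = 1 := by
  unfold rnd
  rw [sum_prod_cube (fun i b => (1 + p i * sg b) / 2)]
  refine Finset.prod_eq_one fun i _ => ?_
  rw [Fintype.sum_bool]
  simp
  ring

/-- the value of the family is the rounded average of `z ↦ E_x ∑ τ, h τ x * k τ (x + z)` -/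
lemma FF_eq_rnd (h k : K → (ι → Bool) → ℝ) (p : ι → ℝ) :
    FF h k p = ∑ z : ι → Bool, rnd p z * Ex (fun x => ∑ τ, h τ x * k τ (fun i => xor (x i) (z i))) := by
  have h1 : ∀ z : ι → Bool, rnd p z * Ex (fun x => ∑ τ, h τ x * k τ (fun i => xor (x i) (z i))) =
      ∑ x : ι → Bool, (∑ τ, h τ x * k τ (fun i => xor (x i) (z i))) *
        ∏ i, ((1 + p i * (sg (x i) * sg (xor (x i) (z i)))) / 4) := by
    intro z
    unfold Ex rnd
    rw [Finset.sum_div, Finset.mul_sum]
    refine Finset.sum_congr rfl fun x _ => ?_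
    have h2 : ∏ i, ((1 + p i * (sg (x i) * sg (xor (x i) (z i)))) / 4) =
        (∏ i, ((1 + p i * sg (z i)) / 2)) / 2 ^ (Fintype.card ι) := by
      rw [← Finset.card_univ, ← Finset.prod_const, ← Finset.prod_div_distrib]
      refine Finset.prod_congr rfl fun i _ => ?_
      rw [sg_xor, ← mul_assoc (sg (x i)), sg_mul_self]
      ring
    rw [h2]
    ring
  rw [Finset.sum_congr rfl fun z _ => h1 z, Finset.sum_comm]
  unfold FF
  refine Finset.sum_congr rfl fun x _ => ?_
  refine (Equiv.sum_comp (Equiv.ofBijective (fun z : ι → Bool => fun i => xor (x i) (z i)) ?_)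
    (fun y => (∑ τ, h τ x * k τ y) * ∏ i, ((1 + p i * (sg (x i) * sg (y i))) / 4))).symm
  apply Function.Involutive.bijective
  intro z
  funext i
  show xor (x i) (xor (x i) (z i)) = z i
  simp

/-- exact expansion of the multilinear function `FF` -/
lemma FF_expand (h k : K → (ι → Bool) → ℝ) (p w : ι → ℝ) :
    FF h k (fun i => p i + w i) = ∑ S : Finset ι, (∏ i ∈ S, w i) * dFF h k S p := by
  unfold dFF FF
  simp_rw [Finset.mul_sum]
  rw [Finset.sum_comm (s := (univ : Finset (Finset ι)))]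
  refine Finset.sum_congr rfl fun x _ => ?_
  rw [Finset.sum_comm (s := (univ : Finset (Finset ι)))]
  refine Finset.sum_congr rfl fun y _ => ?_
  have h1 : ∏ i, ((1 + (p i + w i) * (sg (x i) * sg (y i))) / 4) =
      ∑ S : Finset ι, (∏ i ∈ S, w i) *
        ∏ i, (if i ∈ S then (sg (x i) * sg (y i)) / 4 else (1 + p i * (sg (x i) * sg (y i))) / 4) := by
    have h2 : ∀ i, (1 + (p i + w i) * (sg (x i) * sg (y i))) / 4 =
        w i * ((sg (x i) * sg (y i)) / 4) + (1 + p i * (sg (x i) * sg (y i))) / 4 := fun i => by ring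
    rw [Finset.prod_congr rfl fun i _ => h2 i, Finset.prod_add, Finset.powerset_univ]
    refine Finset.sum_congr rfl fun S _ => ?_
    rw [Finset.prod_mul_distrib, mul_assoc]
    congr 1
    rw [Finset.prod_ite]
    congr 1
    · refine Finset.prod_congr ?_ fun _ _ => rfl
      ext i; simp
    · refine Finset.prod_congr ?_ fun _ _ => rfl
      ext i; simp
  rw [h1, Finset.mul_sum]
  refine Finset.sum_congr rfl fun S _ => ?_
  ring

/-- all derivatives are bounded by one on the cube -/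
lemma dFF_le_one {h k : K → (ι → Bool) → ℝ} (hk : Fam h k) (S : Finset ι) {p : ι → ℝ} (hp : ∀ i, |p i| ≤ 1) :
    |dFF h k S p| ≤ 1 := by
  unfold dFF
  have h1 : ∀ x y : ι → Bool, |(∑ τ, h τ x * k τ y) *
      ∏ i, (if i ∈ S then (sg (x i) * sg (y i)) / 4 else (1 + p i * (sg (x i) * sg (y i))) / 4)| ≤
      ∏ i, (if i ∈ S then (1 : ℝ) / 4 else (1 + p i * (sg (x i) * sg (y i))) / 4) := by
    intro x y
    have h0 : 0 ≤ ∑ τ, h τ x * k τ y := Finset.sum_nonneg fun τ _ => mul_nonneg (hk.h0 τ x) (hk.k0 τ y)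
    rw [abs_mul, abs_of_nonneg h0, Finset.abs_prod]
    have h2 : ∏ i, |(if i ∈ S then (sg (x i) * sg (y i)) / 4 else (1 + p i * (sg (x i) * sg (y i))) / 4)| =
        ∏ i, (if i ∈ S then (1 : ℝ) / 4 else (1 + p i * (sg (x i) * sg (y i))) / 4) := by
      refine Finset.prod_congr rfl fun i _ => ?_
      by_cases hi : i ∈ S
      · simp only [hi, if_true]
        rw [abs_div, abs_mul, abs_sg, abs_sg]
        norm_num
      · simp only [hi, if_false]
        apply abs_of_nonneg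
        have hpi := abs_le.1 (hp i)
        cases x i <;> cases y i <;> simp <;> linarith [hpi.1, hpi.2]
    rw [h2]
    have h3 : 0 ≤ ∏ i, (if i ∈ S then (1 : ℝ) / 4 else (1 + p i * (sg (x i) * sg (y i))) / 4) := by
      rw [← h2]
      exact Finset.prod_nonneg fun i _ => abs_nonneg _
    calc _ ≤ 1 * _ := mul_le_mul_of_nonneg_right (hk.hk1 x y) h3
      _ = _ := one_mul _
  calc _ ≤ ∑ x : ι → Bool, ∑ y : ι → Bool, |(∑ τ, h τ x * k τ y) *
      ∏ i, (if i ∈ S then (sg (x i) * sg (y i)) / 4 else (1 + p i * (sg (x i) * sg (y i))) / 4)| := by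
        refine (Finset.abs_sum_le_sum_abs _ _).trans (Finset.sum_le_sum fun x _ => Finset.abs_sum_le_sum_abs _ _)
    _ ≤ ∑ x : ι → Bool, ∑ y : ι → Bool,
        ∏ i, (if i ∈ S then (1 : ℝ) / 4 else (1 + p i * (sg (x i) * sg (y i))) / 4) :=
        Finset.sum_le_sum fun x _ => Finset.sum_le_sum fun y _ => h1 x y
    _ = 1 := by
        rw [sum_prod_cube2 (fun i a b => if i ∈ S then (1 : ℝ) / 4 else (1 + p i * (sg a * sg b)) / 4)]
        refine Finset.prod_eq_one fun i _ => ?_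
        by_cases hi : i ∈ S
        · simp only [hi, if_true]; simp; norm_num
        · simp only [hi, if_false]; simp; ring

lemma dFF_empty (h k : K → (ι → Bool) → ℝ) (p : ι → ℝ) : dFF h k ∅ p = FF h k p := by
  unfold dFF FF
  simp

end Pool.Agent.H.MP_dd1c2e_lc.le
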