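import Pool.Agent.H.MP_dd1c2e_lc.le.D0

/-!
# LOGEQ, part D: random restrictions

For `|p i| ≤ 1/2` the mixed derivatives of `FF h k` at `p` are averages of Fourier coefficients of restricted families.
-/

namespace Pool.Agent.H.MP_dd1c2e_lc.le

open Finset

variable {ι : Type} [Fintype ι] [DecidableEq ι] {K : Type} [Fintype K]

/-- the restriction of `h`: the coordinates in `J` are fixed as in `x` -/
def res (h : (ι → Bool) → ℝ) (J : Finset ι) (x : ι → Bool) : (ι → Bool) → ℝ :=
  fun x' => h (J.piecewise x x')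

/-- the weight of the fixed coordinates -/
noncomputable def om (p : ι → ℝ) (J : Finset ι) (x y : ι → Bool) : ℝ :=
  ∏ i, (if i ∈ J then (1 + 2 * p i * (sg (x i) * sg (y i))) / 4 else 1 / 4)

lemma Fam.res {h k : K → (ι → Bool) → ℝ} (hk : Fam h k) (J : Finset ι) (x y : ι → Bool) :
    Fam (fun τ => res (h τ) J x) (fun τ => res (k τ) J y) :=
  ⟨fun τ _ => hk.h0 τ _, fun τ _ => hk.h1 τ _, fun τ _ => hk.k0 τ _, fun τ _ => hk.k1 τ _, fun _ _ => hk.hk1 _ _⟩

lemma om_nonneg {p : ι → ℝ} (hp : ∀ i, |p i| ≤ 1 / 2) (J : Finset ι) (x y : ι → Bool) : 0 ≤ om p J x y := by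
  unfold om
  refine Finset.prod_nonneg fun i _ => ?_
  have h := abs_le.1 (hp i)
  split_ifs
  · cases x i <;> cases y i <;> simp <;> linarith [h.1, h.2]
  · norm_num

lemma om_sum (p : ι → ℝ) (J : Finset ι) : ∑ x : ι → Bool, ∑ y : ι → Bool, om p J x y = 1 := by
  unfold om
  rw [sum_prod_cube2 (fun i a b => if i ∈ J then (1 + 2 * p i * (sg a * sg b)) / 4 else 1 / 4)]
  refine Finset.prod_eq_one fun i _ => ?_
  by_cases hi : i ∈ J
  · simp only [hi, if_true]; simp; ring
  · simp only [hi, if_false]; simp; norm_num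

lemma om_congr (p : ι → ℝ) (J : Finset ι) {x y x' y' : ι → Bool} (hx : ∀ i ∈ J, x i = x' i)
    (hy : ∀ i ∈ J, y i = y' i) : om p J x y = om p J x' y' := by
  unfold om
  refine Finset.prod_congr rfl fun i _ => ?_
  by_cases hi : i ∈ J
  · simp only [hi, if_true]; rw [hx i hi, hy i hi]
  · simp only [hi, if_false]

/-- the swap of the coordinates outside `J` -/
def swp (J : Finset ι) : (ι → Bool) × (ι → Bool) ≃ (ι → Bool) × (ι → Bool) where
  toFun q := (J.piecewise q.1 q.2, J.piecewise q.2 q.1)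
  invFun q := (J.piecewise q.1 q.2, J.piecewise q.2 q.1)
  left_inv q := by
    ext i <;> by_cases hi : i ∈ J <;> simp [Finset.piecewise, hi]
  right_inv q := by
    ext i <;> by_cases hi : i ∈ J <;> simp [Finset.piecewise, hi]

lemma sum_swp (J : Finset ι) (f : (ι → Bool) → (ι → Bool) → ℝ) :
    ∑ x : ι → Bool, ∑ x' : ι → Bool, f (J.piecewise x x') (J.piecewise x' x) = ∑ x : ι → Bool, ∑ x' : ι → Bool, f x x' := by
  rw [← Fintype.sum_prod_type' , ← Fintype.sum_prod_type']
  exact Equiv.sum_comp (swp J) (fun q => f q.1 q.2)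

/-- resampling the free coordinates, one player -/
lemma resample1 (J : Finset ι) (w : (ι → Bool) → ℝ) (hw : ∀ x x', (∀ i ∈ J, x i = x' i) → w x = w x')
    (G : (ι → Bool) → ℝ) :
    ∑ x, w x * G x = ∑ x, w x * Ex (fun x' => G (J.piecewise x x')) := by
  have h1 : ∀ x, w x * Ex (fun x' => G (J.piecewise x x')) =
      (∑ x' : ι → Bool, w (J.piecewise x x') * G (J.piecewise x x')) / 2 ^ (Fintype.card ι) := by
    intro x
    unfold Ex
    rw [Finset.sum_div, Finset.mul_sum, Finset.sum_div]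
    refine Finset.sum_congr rfl fun x' _ => ?_
    rw [hw x (J.piecewise x x') (fun i hi => by simp [hi])]
    ring
  rw [Finset.sum_congr rfl fun x _ => h1 x, ← Finset.sum_div, sum_swp J (fun a _ => w a * G a)]
  rw [Finset.sum_congr rfl fun x _ => Finset.sum_const _]
  rw [Finset.card_univ, Fintype.card_fun, Fintype.card_bool, Finset.sum_congr rfl fun x _ => nsmul_eq_mul _ _,
    ← Finset.mul_sum]
  push_cast
  field_simp

lemma resample2 (p : ι → ℝ) (J : Finset ι) (G : (ι → Bool) → (ι → Bool) → ℝ) :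
    ∑ x : ι → Bool, ∑ y : ι → Bool, om p J x y * G x y =
      ∑ x : ι → Bool, ∑ y : ι → Bool, om p J x y * Ex (fun x' => Ex (fun y' => G (J.piecewise x x') (J.piecewise y y'))) := by
  have h1 : ∀ x : ι → Bool, ∑ y : ι → Bool, om p J x y * G x y =
      ∑ y : ι → Bool, om p J x y * Ex (fun y' => G x (J.piecewise y y')) := fun x =>
    resample1 J (fun y => om p J x y) (fun y y' hy => om_congr p J (fun _ _ => rfl) hy) (fun y => G x y)
  rw [Finset.sum_congr rfl fun x _ => h1 x, Finset.sum_comm]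
  have h2 : ∀ y : ι → Bool, ∑ x : ι → Bool, om p J x y * Ex (fun y' => G x (J.piecewise y y')) =
      ∑ x : ι → Bool, om p J x y * Ex (fun x' => Ex (fun y' => G (J.piecewise x x') (J.piecewise y y'))) := fun y =>
    resample1 J (fun x => om p J x y) (fun x x' hx => om_congr p J hx (fun _ _ => rfl))
      (fun x => Ex (fun y' => G x (J.piecewise y y')))
  rw [Finset.sum_congr rfl fun y _ => h2 y, Finset.sum_comm]

lemma chi_piecewise {J S : Finset ι} (hd : Disjoint J S) (x x' : ι → Bool) :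
    chi S (J.piecewise x x') = chi S x' := by
  unfold chi
  refine Finset.prod_congr rfl fun i hi => ?_
  have : i ∉ J := fun h => Finset.disjoint_left.1 hd h hi
  simp [this]

/-- the expansion of the derivative weight -/
lemma weight_expand (p : ι → ℝ) (S : Finset ι) (x y : ι → Bool) :
    ∏ i, (if i ∈ S then (sg (x i) * sg (y i)) / 4 else (1 + p i * (sg (x i) * sg (y i))) / 4) =
      ∑ J : Finset ι, if Disjoint J S then 2 ^ S.card * (1 / 2) ^ (Fintype.card ι) * om p J x y * (chi S x * chi S y)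
        else 0 := by
  have h0 : ∏ i, (if i ∈ S then (sg (x i) * sg (y i)) / 4 else (1 + p i * (sg (x i) * sg (y i))) / 4) =
      (∏ i, ((if i ∈ S then 0 else (1 / 2) * ((1 + 2 * p i * (sg (x i) * sg (y i))) / 4)) +
        (if i ∈ S then 1 / 4 else (1 / 2) * (1 / 4)))) * (chi S x * chi S y) := by
    have : chi S x * chi S y = ∏ i, (if i ∈ S then sg (x i) * sg (y i) else 1) := by
      unfold chi
      rw [← Finset.prod_mul_distrib, Finset.prod_ite_mem, Finset.univ_inter]
    rw [this, ← Finset.prod_mul_distrib]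
    refine Finset.prod_congr rfl fun i _ => ?_
    by_cases hi : i ∈ S
    · simp only [hi, if_true]; ring
    · simp only [hi, if_false]; ring
  rw [h0, Finset.prod_add, Finset.powerset_univ, Finset.sum_mul]
  refine Finset.sum_congr rfl fun J _ => ?_
  split_ifs with hd
  · have h1 : (∏ i ∈ J, (if i ∈ S then 0 else (1 / 2) * ((1 + 2 * p i * (sg (x i) * sg (y i))) / 4))) *
        ∏ i ∈ univ \ J, (if i ∈ S then (1 : ℝ) / 4 else (1 / 2) * (1 / 4)) =
        ∏ i, ((if i ∈ S then 2 else 1) * (1 / 2) *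
          (if i ∈ J then (1 + 2 * p i * (sg (x i) * sg (y i))) / 4 else 1 / 4)) := by
      rw [← Finset.prod_mul_prod_compl J (fun i => ((if i ∈ S then (2 : ℝ) else 1) * (1 / 2) *
          (if i ∈ J then (1 + 2 * p i * (sg (x i) * sg (y i))) / 4 else 1 / 4)))]
      congr 1
      · refine Finset.prod_congr rfl fun i hi => ?_
        have : i ∉ S := fun h => Finset.disjoint_left.1 hd hi h
        simp only [this, hi, if_false, if_true]
        ring
      · refine Finset.prod_congr rfl fun i hi => ?_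
        have : i ∉ J := by simpa using hi
        simp only [this, if_false]
        split_ifs <;> norm_num
    rw [h1, Finset.prod_mul_distrib, Finset.prod_mul_distrib, Finset.prod_const, Finset.card_univ]
    rw [Finset.prod_ite_mem, Finset.univ_inter, Finset.prod_const]
    unfold om
    ring
  · rw [Finset.not_disjoint_iff] at hd
    obtain ⟨i, hiJ, hiS⟩ := hd
    rw [Finset.prod_eq_zero hiJ (by simp [hiS])]
    ring

/-- the derivatives are averages of Fourier coefficients of the restricted families -/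
lemma dFF_restrict (h k : K → (ι → Bool) → ℝ) (S : Finset ι) (p : ι → ℝ) :
    dFF h k S p = ∑ J : Finset ι, (1 / 2) ^ (Fintype.card ι) * ∑ x : ι → Bool, ∑ y : ι → Bool, om p J x y *
      (if Disjoint J S then 2 ^ S.card * ∑ τ, co (res (h τ) J x) S * co (res (k τ) J y) S else 0) := by
  unfold dFF
  have h1 : ∀ x y : ι → Bool, (∑ τ, h τ x * k τ y) *
      ∏ i, (if i ∈ S then (sg (x i) * sg (y i)) / 4 else (1 + p i * (sg (x i) * sg (y i))) / 4) =
      ∑ J : Finset ι, (1 / 2) ^ (Fintype.card ι) * (om p J x y * (if Disjoint J S then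
        2 ^ S.card * ∑ τ, (h τ x * chi S x) * (k τ y * chi S y) else 0)) := by
    intro x y
    rw [weight_expand, Finset.mul_sum]
    refine Finset.sum_congr rfl fun J _ => ?_
    split_ifs
    · have : ∑ τ, (h τ x * chi S x) * (k τ y * chi S y) = (∑ τ, h τ x * k τ y) * (chi S x * chi S y) := by
        rw [Finset.sum_mul]
        exact Finset.sum_congr rfl fun τ _ => by ring
      rw [this]
      ring
    · ring
  rw [Finset.sum_congr rfl fun x _ => Finset.sum_congr rfl fun y _ => h1 x y]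
  rw [Finset.sum_congr rfl fun x _ => Finset.sum_comm, Finset.sum_comm]
  refine Finset.sum_congr rfl fun J _ => ?_
  simp_rw [← Finset.mul_sum]
  congr 1
  rw [resample2]
  refine Finset.sum_congr rfl fun x _ => Finset.sum_congr rfl fun y _ => ?_
  congr 1
  split_ifs with hd
  · rw [show (fun x' : ι → Bool => Ex (fun y' : ι → Bool => 2 ^ S.card * ∑ τ, (h τ (J.piecewise x x') *
        chi S (J.piecewise x x')) * (k τ (J.piecewise y y') * chi S (J.piecewise y y')))) =
        fun x' => 2 ^ S.card * ∑ τ, (res (h τ) J x x' * chi S x') * co (res (k τ) J y) S from ?_]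
    · rw [Ex_smul, Ex_sum]
      congr 1
      refine Finset.sum_congr rfl fun τ _ => ?_
      unfold co
      rw [mul_comm, ← Ex_smul]
      congr 1
      funext x'
      ring
    · funext x'
      rw [Ex_smul, Ex_sum]
      congr 1
      refine Finset.sum_congr rfl fun τ _ => ?_
      unfold co
      rw [← Ex_smul]
      congr 1
      funext y'
      rw [chi_piecewise hd, chi_piecewise hd]
      rfl
  · rw [Ex_const, Ex_const]

/-- the sum of the derivatives over a set of pairs is at most `4 * B`, where `B` bounds the sum of the products of the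
Fourier coefficients of all families of rectangles of the same size -/
theorem sum_dFF_le {h k : K → (ι → Bool) → ℝ} (hk : Fam h k) (P : Finset (Finset ι)) (hP : ∀ S ∈ P, S.card = 2) (B : ℝ)
    (hB : ∀ h' k' : K → (ι → Bool) → ℝ, Fam h' k' → ∑ τ, ∑ S ∈ P, |co (h' τ) S| * |co (k' τ) S| ≤ B)
    {p : ι → ℝ} (hp : ∀ i, |p i| ≤ 1 / 2) : ∑ S ∈ P, |dFF h k S p| ≤ 4 * B := by
  have h1 : ∀ S ∈ P, |dFF h k S p| ≤ ∑ J : Finset ι, (1 / 2) ^ (Fintype.card ι) * ∑ x : ι → Bool, ∑ y : ι → Bool,
      om p J x y * (4 * ∑ τ, |co (res (h τ) J x) S| * |co (res (k τ) J y) S|) := by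
    intro S hS
    rw [dFF_restrict]
    refine (Finset.abs_sum_le_sum_abs _ _).trans (Finset.sum_le_sum fun J _ => ?_)
    rw [abs_mul, abs_of_nonneg (by positivity : (0 : ℝ) ≤ (1 / 2) ^ (Fintype.card ι))]
    refine mul_le_mul_of_nonneg_left ?_ (by positivity)
    refine (Finset.abs_sum_le_sum_abs _ _).trans (Finset.sum_le_sum fun x _ => ?_)
    refine (Finset.abs_sum_le_sum_abs _ _).trans (Finset.sum_le_sum fun y _ => ?_)
    rw [abs_mul, abs_of_nonneg (om_nonneg hp J x y)]
    refine mul_le_mul_of_nonneg_left ?_ (om_nonneg hp J x y)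
    have h0 : 0 ≤ ∑ τ, |co (res (h τ) J x) S| * |co (res (k τ) J y) S| :=
      Finset.sum_nonneg fun τ _ => mul_nonneg (abs_nonneg _) (abs_nonneg _)
    split_ifs
    · rw [abs_mul, hP S hS]
      have : |∑ τ, co (res (h τ) J x) S * co (res (k τ) J y) S| ≤
          ∑ τ, |co (res (h τ) J x) S| * |co (res (k τ) J y) S| := by
        refine (Finset.abs_sum_le_sum_abs _ _).trans (Finset.sum_le_sum fun τ _ => ?_)
        rw [abs_mul]
      have h4 : |(2 : ℝ) ^ 2| = 4 := by norm_num
      rw [h4]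
      linarith
    · rw [abs_zero]
      positivity
  refine (Finset.sum_le_sum h1).trans ?_
  rw [Finset.sum_comm]
  have h2 : ∀ J : Finset ι, ∑ S ∈ P, (1 / 2 : ℝ) ^ (Fintype.card ι) * ∑ x : ι → Bool, ∑ y : ι → Bool,
      om p J x y * (4 * ∑ τ, |co (res (h τ) J x) S| * |co (res (k τ) J y) S|) ≤
      (1 / 2) ^ (Fintype.card ι) * (4 * B) := by
    intro J
    rw [← Finset.mul_sum]
    refine mul_le_mul_of_nonneg_left ?_ (by positivity)
    rw [Finset.sum_comm]
    have h3 : ∀ x : ι → Bool, ∑ S ∈ P, ∑ y : ι → Bool,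
        om p J x y * (4 * ∑ τ, |co (res (h τ) J x) S| * |co (res (k τ) J y) S|) ≤
        ∑ y : ι → Bool, om p J x y * (4 * B) := by
      intro x
      rw [Finset.sum_comm]
      refine Finset.sum_le_sum fun y _ => ?_
      rw [← Finset.mul_sum, ← Finset.mul_sum, Finset.sum_comm]
      refine mul_le_mul_of_nonneg_left ?_ (om_nonneg hp J x y)
      refine mul_le_mul_of_nonneg_left ?_ (by norm_num)
      exact hB _ _ (hk.res J x y)
    refine (Finset.sum_le_sum fun x _ => h3 x).trans ?_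
    simp_rw [← Finset.sum_mul]
    rw [om_sum, one_mul]
  refine (Finset.sum_le_sum fun J _ => h2 J).trans ?_
  rw [Finset.sum_const, Finset.card_univ, Fintype.card_finset, nsmul_eq_mul]
  push_cast
  rw [← mul_assoc, ← mul_pow]
  norm_num

/-- a numerical bound -/
lemma num_term {w L : ℝ} (hw0 : 0 < w) (hw1 : w ≤ 1) (hL : 0 ≤ L) :
    w * (1 + Real.log (1 / w) / 2) ^ 2 ≤ w * (1 + L) ^ 2 + 2 * Real.exp (-L) := by
  by_cases h : Real.log (1 / w) / 2 ≤ L
  · have h0 : 0 ≤ Real.log (1 / w) / 2 := by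
      have : 0 ≤ Real.log (1 / w) := Real.log_nonneg (by rw [le_div_iff₀ hw0]; linarith)
      linarith
    have : w * (1 + Real.log (1 / w) / 2) ^ 2 ≤ w * (1 + L) ^ 2 := by
      refine mul_le_mul_of_nonneg_left ?_ hw0.le
      exact pow_le_pow_left₀ (by linarith) (by linarith) 2
    have h3 := Real.exp_pos (-L)
    linarith
  · push Not at h
    set s := Real.log (1 / w) / 2 with hs
    have hws : w = Real.exp (-s) * Real.exp (-s) := by
      rw [← Real.exp_add, hs]
      rw [show -(Real.log (1 / w) / 2) + -(Real.log (1 / w) / 2) = Real.log w by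
        rw [one_div, Real.log_inv]; ring, Real.exp_log hw0]
    have h1 : (1 + s) ^ 2 * Real.exp (-s) ≤ 2 := by
      have h2 : (1 + s) / 2 ≤ Real.exp ((s - 1) / 2) := by
        have := Real.add_one_le_exp ((s - 1) / 2)
        linarith
      have h3 : ((1 + s) / 2) ^ 2 ≤ Real.exp ((s - 1) / 2) ^ 2 := pow_le_pow_left₀ (by linarith) h2 2
      have h4 : Real.exp ((s - 1) / 2) ^ 2 * Real.exp (-s) = Real.exp (-1) := by
        rw [← Real.exp_nat_mul, ← Real.exp_add]
        congr 1
        push_cast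
        ring
      have h5 : Real.exp (-1) ≤ 1 / 2 := by
        rw [Real.exp_neg, inv_eq_one_div]
        apply one_div_le_one_div_of_le (by norm_num)
        have := Real.add_one_le_exp (1 : ℝ)
        linarith
      have h6 := Real.exp_pos (-s)
      have h7 : ((1 + s) / 2) ^ 2 * Real.exp (-s) ≤ 1 / 2 := by
        calc _ ≤ Real.exp ((s - 1) / 2) ^ 2 * Real.exp (-s) := mul_le_mul_of_nonneg_right h3 h6.le
          _ ≤ _ := by rw [h4]; exact h5
      nlinarith
    have h8 : Real.exp (-s) ≤ Real.exp (-L) := Real.exp_le_exp.2 (by linarith)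
    have h9 : w * (1 + s) ^ 2 ≤ 2 * Real.exp (-L) := by
      calc w * (1 + s) ^ 2 = ((1 + s) ^ 2 * Real.exp (-s)) * Real.exp (-s) := by rw [hws]; ring
        _ ≤ 2 * Real.exp (-s) := mul_le_mul_of_nonneg_right h1 (Real.exp_pos _).le
        _ ≤ _ := by linarith
    have h10 : 0 ≤ w * (1 + L) ^ 2 := by positivity
    linarith

/-- the sum over the leaves -/
lemma num_sum [Nonempty K] (a b : K → ℝ) (ha0 : ∀ τ, 0 ≤ a τ) (ha1 : ∀ τ, a τ ≤ 1) (hb0 : ∀ τ, 0 ≤ b τ)
    (hb1 : ∀ τ, b τ ≤ 1) (hab : ∑ τ, a τ * b τ ≤ 1) :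
    ∑ τ, (a τ * (1 + Real.log (1 / a τ))) * (b τ * (1 + Real.log (1 / b τ))) ≤
      3 * (1 + Real.log (Fintype.card K)) ^ 2 := by
  set L := Real.log (Fintype.card K) with hL
  have hm : (1 : ℝ) ≤ Fintype.card K := by exact_mod_cast Fintype.card_pos
  have hL0 : 0 ≤ L := Real.log_nonneg hm
  have h1 : ∀ τ, (a τ * (1 + Real.log (1 / a τ))) * (b τ * (1 + Real.log (1 / b τ))) ≤
      (a τ * b τ) * (1 + L) ^ 2 + 2 * Real.exp (-L) := by
    intro τ
    have hE := Real.exp_pos (-L)
    rcases (ha0 τ).eq_or_lt with h | ha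
    · rw [← h]; simp; positivity
    rcases (hb0 τ).eq_or_lt with h | hb
    · rw [← h]; simp; positivity
    have hab0 : 0 < a τ * b τ := mul_pos ha hb
    have hab1 : a τ * b τ ≤ 1 := mul_le_one₀ (ha1 τ) hb.le (hb1 τ)
    refine le_trans ?_ (num_term hab0 hab1 hL0)
    have hlog : Real.log (1 / (a τ * b τ)) = Real.log (1 / a τ) + Real.log (1 / b τ) := by
      rw [← Real.log_mul (by positivity) (by positivity)]
      congr 1
      field_simp
    rw [hlog]
    set u := Real.log (1 / a τ)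
    set v := Real.log (1 / b τ)
    have : (1 + u) * (1 + v) ≤ (1 + (u + v) / 2) ^ 2 := by nlinarith [sq_nonneg (u - v)]
    calc a τ * (1 + u) * (b τ * (1 + v)) = (a τ * b τ) * ((1 + u) * (1 + v)) := by ring
      _ ≤ _ := mul_le_mul_of_nonneg_left this hab0.le
  refine (Finset.sum_le_sum fun τ _ => h1 τ).trans ?_
  rw [Finset.sum_add_distrib, ← Finset.sum_mul, Finset.sum_const, Finset.card_univ, nsmul_eq_mul]
  have h2 : Real.exp (-L) = 1 / (Fintype.card K : ℝ) := by
    rw [Real.exp_neg, hL, Real.exp_log (by linarith), one_div]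
  rw [h2]
  have h3 : (Fintype.card K : ℝ) * (2 * (1 / (Fintype.card K : ℝ))) = 2 := by field_simp
  rw [h3]
  have h4 : (∑ τ, a τ * b τ) * (1 + L) ^ 2 ≤ 1 * (1 + L) ^ 2 := mul_le_mul_of_nonneg_right hab (by positivity)
  nlinarith

/-- **From a level inequality to the bound for families.** -/
theorem level_sum [Nonempty K] (P : Finset (Finset ι)) (C : ℝ) (hC : 0 ≤ C)
    (hlev : ∀ h : (ι → Bool) → ℝ, (∀ x, 0 ≤ h x) → (∀ x, h x ≤ 1) →
      ∑ S ∈ P, co h S ^ 2 ≤ (C * (Ex h * (1 + Real.log (1 / Ex h)))) ^ 2)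
    {h k : K → (ι → Bool) → ℝ} (hk : Fam h k) :
    ∑ τ, ∑ S ∈ P, |co (h τ) S| * |co (k τ) S| ≤ C ^ 2 * (3 * (1 + Real.log (Fintype.card K)) ^ 2) := by
  have hpos : ∀ g : (ι → Bool) → ℝ, (∀ x, 0 ≤ g x) → (∀ x, g x ≤ 1) →
      0 ≤ Ex g * (1 + Real.log (1 / Ex g)) := by
    intro g h0 h1
    have ha := Ex_nonneg h0
    have hb := Ex_le_one h1
    rcases ha.eq_or_lt with h | h
    · rw [← h]; simp
    · have : 0 ≤ Real.log (1 / Ex g) := Real.log_nonneg (by rw [le_div_iff₀ h]; linarith)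
      positivity
  have h1 : ∀ τ, ∑ S ∈ P, |co (h τ) S| * |co (k τ) S| ≤
      C ^ 2 * ((Ex (h τ) * (1 + Real.log (1 / Ex (h τ)))) * (Ex (k τ) * (1 + Real.log (1 / Ex (k τ))))) := by
    intro τ
    have hh := hlev (h τ) (hk.h0 τ) (hk.h1 τ)
    have hkk := hlev (k τ) (hk.k0 τ) (hk.k1 τ)
    have hcs := Finset.sum_mul_sq_le_sq_mul_sq P (fun S => |co (h τ) S|) (fun S => |co (k τ) S|)
    simp only [sq_abs] at hcs
    have h2 : (∑ S ∈ P, |co (h τ) S| * |co (k τ) S|) ^ 2 ≤
        ((C * (Ex (h τ) * (1 + Real.log (1 / Ex (h τ))))) * (C * (Ex (k τ) * (1 + Real.log (1 / Ex (k τ)))))) ^ 2 := by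
      rw [mul_pow]
      refine hcs.trans (mul_le_mul hh hkk (Finset.sum_nonneg fun _ _ => sq_nonneg _) (sq_nonneg _))
    have h3 : 0 ≤ (C * (Ex (h τ) * (1 + Real.log (1 / Ex (h τ))))) * (C * (Ex (k τ) * (1 + Real.log (1 / Ex (k τ))))) :=
      mul_nonneg (mul_nonneg hC (hpos _ (hk.h0 τ) (hk.h1 τ))) (mul_nonneg hC (hpos _ (hk.k0 τ) (hk.k1 τ)))
    have h4 := abs_le_of_sq_le_sq h2 h3
    refine (le_abs_self _).trans (h4.trans (le_of_eq ?_))
    ring
  refine (Finset.sum_le_sum fun τ _ => h1 τ).trans ?_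
  rw [← Finset.mul_sum]
  refine mul_le_mul_of_nonneg_left ?_ (sq_nonneg C)
  refine num_sum _ _ (fun τ => Ex_nonneg (hk.h0 τ)) (fun τ => Ex_le_one (hk.h1 τ)) (fun τ => Ex_nonneg (hk.k0 τ))
    (fun τ => Ex_le_one (hk.k1 τ)) ?_
  have h5 : ∑ τ, Ex (h τ) * Ex (k τ) = Ex (fun x => Ex (fun y => ∑ τ, h τ x * k τ y)) := by
    have : (fun x => Ex (fun y => ∑ τ, h τ x * k τ y)) = fun x => ∑ τ, Ex (k τ) * h τ x := by
      funext x
      rw [Ex_sum]
      refine Finset.sum_congr rfl fun τ _ => ?_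
      rw [Ex_smul, mul_comm]
    rw [this, Ex_sum]
    refine Finset.sum_congr rfl fun τ _ => ?_
    rw [Ex_smul, mul_comm]
  rw [h5]
  exact Ex_le_one fun x => Ex_le_one fun y => hk.hk1 x y

end Pool.Agent.H.MP_dd1c2e_lc.le
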